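import Mathlib
import Pool.Agent.X34.E.E35
import Pool.Agent.X34.E.E4

set_option autoImplicit false

/-!
# Sums `n = k + m`, `6 k - 1` followed by a bounded gap, `p_m` followed by a bounded gap

In the problem `6 k - 1, 6 k + 1` are twin primes and `p_m, p_m + 2` are twin primes. Here bounded gaps take the place of
the gap 2 in both conditions: `6 k - 1` and `6 (k + j) - 1` are consecutive primes, `1 ≤ j ≤ 73`, and
`p_(m+1) - p_m ≤ 212`. At least `c x / (log log log log x)^e` of the `n ≤ x` are such sums. The set of the `m` can be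
replaced by an arbitrary set with at least `t / (log t)^B` elements up to `t`.

Proof: the count of the right order for 45 forms (engine E of helper34, files `Pool.Agent.X34.E`, which uses the starting
library's theorem for 45 forms) provides at least `c X / (log X)^45` of the `n` in `(X, 4 X]` such that all 45 numbers
`n + 6 g` are free of small prime factors and two of them are the consecutive primes; the argument of Romanoff, with the
moments of the singular series over the differences of a fairly dense set (starting library,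
`Pool.Agent.TH685.TI`, here for 45 shifts in place of 2), gives the sumset.
-/

namespace Pool.Agent.Results.MP_ea8352_nt.BoundedGapsBothSides

/-- `6 k - 1` and `6 (k + j) - 1` are consecutive primes, for some `1 ≤ j ≤ 73` -/
def Small (k : ℕ) : Prop := ∃ j : ℕ, 1 ≤ j ∧ j ≤ 73 ∧ (6 * k - 1).Prime ∧ (6 * (k + j) - 1).Prime ∧
  ∀ q : ℕ, 6 * k - 1 < q → q < 6 * (k + j) - 1 → ¬ q.Prime

/-- the number of the `n ≤ x` of the form `n = k + m`, `k, m ≥ 1`, with `m` in `K`,
`m ≤ (log x)^45 (log log x)^(B + 2)` and `Small k` -/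
noncomputable def represented (K : Set ℕ) (B x : ℕ) : ℕ :=
  Set.ncard {n : ℕ | 1 ≤ n ∧ n ≤ x ∧ ∃ k m : ℕ, 1 ≤ k ∧ 1 ≤ m ∧ k + m = n ∧ m ∈ K ∧
    (m : ℝ) ≤ Real.log x ^ 45 * Real.log (Real.log x) ^ (B + 2) ∧ Small k}

/-- the `m ≥ 1` with `p_(m+1) ≤ p_m + 212`, where `p_1 = 2` (so `p_m` is `Nat.nth Nat.Prime (m - 1)`) -/
def SmallGap : Set ℕ := {m : ℕ | 1 ≤ m ∧ Nat.nth Nat.Prime m ≤ Nat.nth Nat.Prime (m - 1) + 212}

/-- There is `e` such that: (1) if `K` has at least `t / (log t)^B` elements in `[1, t]` for all large `t`, then for some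
`c > 0` and all large `x` at least `c x / (log log log log x)^e` of the `n ≤ x` are sums `k + m`, `k, m ≥ 1`, with `m` in
`K`, `m ≤ (log x)^45 (log log x)^(B + 2)`, and `6 k - 1` and `6 (k + j) - 1` consecutive primes for some `1 ≤ j ≤ 73`;
(2) for some `c > 0` and all large `x` at least `c x / (log log log log x)^e` of the `n ≤ x` are sums `k + m`,
`k, m ≥ 1`, with `p_(m+1) - p_m ≤ 212`, `m ≤ (log x)^45 (log log x)^48`, and `6 k - 1` and `6 (k + j) - 1` consecutive
primes for some `1 ≤ j ≤ 73`. -/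
theorem result : ∃ e : ℕ,
    (∀ (B : ℕ) (K : Set ℕ), (∀ᶠ t : ℕ in Filter.atTop, (t : ℝ) / Real.log t ^ B ≤
        (Set.ncard {m : ℕ | 1 ≤ m ∧ m ≤ t ∧ m ∈ K} : ℝ)) →
      ∃ c : ℝ, 0 < c ∧ ∀ᶠ x : ℕ in Filter.atTop,
        c * x / Real.log (Real.log (Real.log (Real.log x))) ^ e ≤ represented K B x) ∧
    ∃ c : ℝ, 0 < c ∧ ∀ᶠ x : ℕ in Filter.atTop,
      c * x / Real.log (Real.log (Real.log (Real.log x))) ^ e ≤ represented SmallGap 46 x := by
  classical
  have hE := Pool.Agent.X34.E.dhl45R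
  obtain ⟨e, h⟩ := Pool.Agent.X34.E.sums_index hE
  have hcnt : ∀ (K : Set ℕ) (t : ℕ), Pool.Agent.X34.E.cntK K t = Set.ncard {m : ℕ | 1 ≤ m ∧ m ≤ t ∧ m ∈ K} := by
    intro K t
    unfold Pool.Agent.X34.E.cntK
    rw [← Set.ncard_coe_finset]
    congr 1
    ext m
    simp only [Finset.coe_filter, Finset.mem_Icc, Set.mem_ofPred_eq, and_assoc]
  have h1 : ∀ (B : ℕ) (K : Set ℕ), (∀ᶠ t : ℕ in Filter.atTop, (t : ℝ) / Real.log t ^ B ≤
        (Set.ncard {m : ℕ | 1 ≤ m ∧ m ≤ t ∧ m ∈ K} : ℝ)) →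
      ∃ c : ℝ, 0 < c ∧ ∀ᶠ x : ℕ in Filter.atTop,
        c * x / Real.log (Real.log (Real.log (Real.log x))) ^ e ≤ represented K B x := by
    intro B K hK
    obtain ⟨c, hc, h2⟩ := h B K (by simpa only [hcnt] using hK)
    refine ⟨c, hc, ?_⟩
    filter_upwards [h2] with x hx
    refine hx.trans ?_
    unfold represented
    rw [Nat.cast_le, ← Set.ncard_coe_finset]
    apply Set.ncard_le_ncard
    · intro n hn
      rw [Finset.mem_coe, Finset.mem_filter, Finset.mem_Icc] at hn
      exact ⟨hn.1.1, hn.1.2, hn.2⟩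
    · exact (Set.finite_Icc 1 x).subset fun m hm => ⟨hm.1, hm.2.1⟩
  refine ⟨e, h1, h1 46 SmallGap ?_⟩
  have h2 := Pool.Agent.X34.E.index_density hE
  simp only [hcnt] at h2
  exact h2

end Pool.Agent.Results.MP_ea8352_nt.BoundedGapsBothSides
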