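import Pool.Agent.X5.FE.Gen

/-!
# MP_ea8352_nt: integers whose decompositions have only large indices

Let `K_0, K_1, ...` be arbitrary sets of positive integers. For all large `X` (uniformly in the sets) there is
an `n` in `(X, 2 X]` such that in every decomposition `n = k + m` with `6 k - 1` prime and `m` in `K_i` the
number `m` is larger than the first `c log X log log X / 2 ^ i` elements of `K_i`.
For `K_0 = {m : p_m + 2 prime}` this covers all the admissible decompositions of the question.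
-/

set_option autoImplicit false
set_option maxHeartbeats 4000000

namespace Pool.Agent.Results.MP_ea8352_nt.FirstIndices

open Classical in
/-- the number of the positive elements `≤ m` of `K` -/
noncomputable def rank (K : Set ℕ) (m : ℕ) : ℕ :=
  ((Finset.range (m + 1)).filter (fun t : ℕ => 1 ≤ t ∧ t ∈ K)).card

open Classical in
lemma rank_eq (K : Set ℕ) (m : ℕ) (hm : 1 ≤ m) (hK : m ∈ K) :
    rank K m = Nat.count (fun t : ℕ => 1 ≤ t ∧ t ∈ K) m + 1 := by
  unfold rank
  rw [← Nat.count_eq_card_filter_range, Nat.count_succ, if_pos ⟨hm, hK⟩]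

open Classical in
/-- (1) The first elements of countably many index sets are avoided. (2) The case of the question: all the
admissible decompositions. -/
theorem result : ∃ c : ℝ, 0 < c ∧ ∃ X₀ : ℝ, ∀ X : ℝ, X₀ ≤ X →
    (∀ K : ℕ → Set ℕ, ∃ n : ℕ, X < n ∧ (n : ℝ) ≤ 2 * X ∧
      ∀ i k m : ℕ, 1 ≤ k → 1 ≤ m → k + m = n → (6 * k - 1).Prime → m ∈ K i →
        c * (Real.log X * Real.log (Real.log X)) / 2 ^ i < rank (K i) m) ∧
    ∃ n : ℕ, X < n ∧ (n : ℝ) ≤ 2 * X ∧
      ∀ k m : ℕ, 1 ≤ k → 1 ≤ m → k + m = n → (6 * k - 1).Prime → (6 * k + 1).Prime →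
        (Nat.nth Nat.Prime (m - 1) + 2).Prime →
        c * (Real.log X * Real.log (Real.log X)) <
          rank {t : ℕ | (Nat.nth Nat.Prime (t - 1) + 2).Prime} m := by
  obtain ⟨c, hc, X₀, h⟩ := Pool.Agent.X5.FE.avoid_seqs 6 (by norm_num) 5
  have hmain : ∀ X : ℝ, max X₀ (Real.exp (Real.exp 1)) ≤ X →
      ∀ K : ℕ → Set ℕ, ∃ n : ℕ, X < n ∧ (n : ℝ) ≤ 2 * X ∧
      ∀ i k m : ℕ, 1 ≤ k → 1 ≤ m → k + m = n → (6 * k - 1).Prime → m ∈ K i →
        c * (Real.log X * Real.log (Real.log X)) / 2 ^ i < rank (K i) m := by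
    intro X hX K
    have hX0 : X₀ ≤ X := (le_max_left _ _).trans hX
    have hX1 : Real.exp (Real.exp 1) ≤ X := (le_max_right _ _).trans hX
    have hXpos : 0 < X := (Real.exp_pos _).trans_le hX1
    have he1 : (1 : ℝ) ≤ Real.exp 1 := Real.one_le_exp (by norm_num)
    have hX1' : 1 ≤ X := by
      refine le_trans ?_ hX1
      exact Real.one_le_exp (Real.exp_pos _).le
    have hL : Real.exp 1 ≤ Real.log X := by
      rw [← Real.log_exp (Real.exp 1)]
      exact Real.log_le_log (Real.exp_pos _) hX1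
    have hl : 1 ≤ Real.log (Real.log X) := by
      rw [← Real.log_exp 1]
      exact Real.log_le_log (Real.exp_pos _) hL
    have hXX : X ≤ 6 * X - 1 := by linarith
    obtain ⟨N, hN1, hN2, hN3, hN4⟩ := h (6 * X - 1) (hX0.trans hXX)
      (fun i u => 6 * Nat.nth (fun t : ℕ => 1 ≤ t ∧ t ∈ K i) (u - 1))
    have h2 := hN3 2 Nat.prime_two (by norm_num)
    have h3 := hN3 3 Nat.prime_three (by norm_num)
    have hNn : N + 1 = 6 * ((N + 1) / 6) := by omega
    have hNR : (N : ℝ) + 1 = 6 * (((N + 1) / 6 : ℕ) : ℝ) := by exact_mod_cast hNn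
    refine ⟨(N + 1) / 6, by linarith, by linarith, ?_⟩
    intro i k m hk hm hkm hkp hmK
    have h4 := hN4 i (rank (K i) m) (6 * k - 1) (by rw [rank_eq _ _ hm hmK]; omega) hkp (by
      rw [rank_eq _ _ hm hmK, Nat.add_sub_cancel, Nat.nth_count ⟨hm, hmK⟩]
      omega)
    refine lt_of_le_of_lt ?_ h4
    have hlog : Real.log X ≤ Real.log (6 * X - 1) := Real.log_le_log hXpos hXX
    have hLp : 0 < Real.log X := (Real.exp_pos _).trans_le hL
    have hlog2 : Real.log (Real.log X) ≤ Real.log (Real.log (6 * X - 1)) := Real.log_le_log hLp hlog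
    apply div_le_div_of_nonneg_right _ (by positivity)
    apply mul_le_mul_of_nonneg_left _ hc.le
    exact mul_le_mul hlog hlog2 (by linarith) (by linarith)
  refine ⟨c, hc, max X₀ (Real.exp (Real.exp 1)), fun X hX => ⟨hmain X hX, ?_⟩⟩
  obtain ⟨n, hn1, hn2, hn3⟩ := hmain X hX (fun _ => {t : ℕ | (Nat.nth Nat.Prime (t - 1) + 2).Prime})
  refine ⟨n, hn1, hn2, ?_⟩
  intro k m hk hm hkm hk1 _ hm2
  have := hn3 0 k m hk hm hkm hk1 hm2
  rwa [pow_zero, div_one] at this

end Pool.Agent.Results.MP_ea8352_nt.FirstIndices
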