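import Mathlib
import Pool.Agent.X26.AN.Tup

/-!
# The prime factors of the indices `k` with `6 k - 1` and `6 k + 1` both prime

Let `f` be a real function on the primes, bounded by `1`, and let `k` run over the indices with `6 k ± 1` both prime
in an interval `(y, y + X]`, `X ≥ x ^ θ`. Then for all but at most `ε X / log ^ 2 x` of these `k` (that is, `ε` times
the conjectured number) the sum of `f` over the prime factors of `k + b` differs from its mean value by at most
`K √(log log x)`; in particular `k + b` has `log log x + O(√(log log x))` prime factors. This is the right order of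
the fluctuations (Turán–Kubilius); `K` depends only on `ε`, `θ` and `A`.
-/

set_option autoImplicit false

namespace Pool.Agent.Results.MP_ea8352_nt.PrimeFactorsOfIndices

open Finset
open Pool.Agent.Y843.AC.HL (Tup Tp Adm nu gg Sing gg_pos)
open Pool.Agent.X26.AN (om mn tup mn_one)

/-- `6 k - 1` and `6 k + 1` are prime -/
def TwinIndex (k : ℕ) : Prop := (6 * k - 1).Prime ∧ (6 * k + 1).Prime

/-- the sum of `f` over the prime factors of `n` -/
noncomputable def additive (f : ℕ → ℝ) (n : ℤ) : ℝ := ∑ q ∈ n.natAbs.primeFactors, f q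

/-- the mean value of the additive function: the sum of `f q / q` over the primes `q ≤ x` -/
noncomputable def mean (f : ℕ → ℝ) (x : ℕ) : ℝ := ∑ q ∈ (Icc 1 x).filter Nat.Prime, f q / q

theorem mean_eq (f : ℕ → ℝ) (x : ℕ) : mean f x = mn f x := by
  unfold mean mn Pool.Agent.Y843.HS.Pr
  have h1 : Icc 1 x = Ioc 0 x := by
    ext m
    simp only [mem_Icc, mem_Ioc]
    omega
  rw [h1]
  apply sum_congr rfl
  intro q _
  rw [mul_one_div]

theorem six {f : ℕ → ℝ} (hf : ∀ q, |f q| ≤ 1) {m : ℤ} (hm : m ≠ 0) :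
    |om f (6 * m) - additive f m| ≤ 2 := by
  have h6 : (6 : ℕ).primeFactors ⊆ {2, 3} := by
    intro q hq
    rw [Nat.mem_primeFactors] at hq
    have h1 := Nat.le_of_dvd (by norm_num) hq.2.1
    have h2 := hq.1.two_le
    rw [mem_insert, mem_singleton]
    have h3 := hq.2.1
    have h4 := hq.1
    interval_cases q
    · left; rfl
    · right; rfl
    · exact absurd h4 (by norm_num)
    · exact absurd h3 (by norm_num)
    · exact absurd h4 (by norm_num)
  have hm0 : m.natAbs ≠ 0 := Int.natAbs_ne_zero.2 hm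
  have e : (6 * m).natAbs.primeFactors = (m.natAbs).primeFactors ∪ ((6 : ℕ).primeFactors \ (m.natAbs).primeFactors) := by
    rw [Int.natAbs_mul, Nat.primeFactors_mul (by norm_num) hm0]
    ext q
    simp only [mem_union, mem_sdiff]
    have : (6 : ℤ).natAbs = 6 := rfl
    rw [this]
    tauto
  have hd : Disjoint (m.natAbs).primeFactors ((6 : ℕ).primeFactors \ (m.natAbs).primeFactors) := disjoint_sdiff
  unfold om additive
  rw [e, sum_union hd, add_sub_cancel_left]
  refine (abs_sum_le_sum_abs _ _).trans ?_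
  refine (sum_le_sum fun q _ => hf q).trans ?_
  rw [sum_const, nsmul_eq_mul, mul_one]
  have h7 : ((6 : ℕ).primeFactors \ (m.natAbs).primeFactors).card ≤ 2 := by
    refine (card_le_card (sdiff_subset.trans h6)).trans ?_
    exact card_le_two
  exact_mod_cast h7

theorem tup_T {x : ℕ} (hx : 1 ≤ x) : Tup 2 x ({-1, 1} : Finset ℤ) := by
  refine ⟨by decide, ?_, ?_⟩
  · intro q hq
    have h1 : nu ({-1, 1} : Finset ℤ) q ≤ 2 := card_image_le
    rcases hq.eq_two_or_odd with h2 | h2
    · subst h2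
      unfold nu
      decide
    · have := hq.two_le
      omega
  · intro t ht
    rw [mem_insert, mem_singleton] at ht
    rcases ht with rfl | rfl
    · rw [abs_neg, abs_one]; exact_mod_cast hx
    · rw [abs_one]; exact_mod_cast hx

open Classical in
/-- For all `A`, `θ > 0` and `ε > 0` there is `K` such that for all large `x`, all integers `b` with `6 |b| ≤ x` and all
intervals `(y, y + X]` with `x ^ θ ≤ X` and `y + X ≤ x ^ A`: (1) for EVERY `f` with `|f| ≤ 1`, at most
`ε X / log ^ 2 x` of the `k` in the interval with `6 k ± 1` prime (and `k + b ≠ 0`) have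
`|∑_{q | k + b} f(q) - ∑_{q ≤ x} f(q) / q| > K √(log log x)`; (2) at most `ε X / log ^ 2 x` of them have
`|ω(k + b) - log log x| > K √(log log x)`. -/
theorem result (A : ℕ) (θ ε : ℝ) (hθ : 0 < θ) (hε : 0 < ε) : ∃ K : ℝ, 0 < K ∧ ∃ x₀ : ℕ, ∀ x : ℕ, x₀ ≤ x →
    ∀ b : ℤ, 6 * |b| ≤ x → ∀ y X : ℕ, (x : ℝ) ^ θ ≤ X → y + X ≤ x ^ A →
    (∀ f : ℕ → ℝ, (∀ q, |f q| ≤ 1) →
      (((Ioc y (y + X)).filter (fun k : ℕ => TwinIndex k ∧ (k : ℤ) + b ≠ 0 ∧
        K * √(Real.log (Real.log x)) < |additive f ((k : ℤ) + b) - mean f x|)).card : ℝ) ≤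
          ε * (X / Real.log x ^ 2)) ∧
    (((Ioc y (y + X)).filter (fun k : ℕ => TwinIndex k ∧ (k : ℤ) + b ≠ 0 ∧
      K * √(Real.log (Real.log x)) <
        |((((k : ℤ) + b).natAbs.primeFactors.card : ℕ) : ℝ) - Real.log (Real.log x)|)).card : ℝ) ≤
          ε * (X / Real.log x ^ 2) := by
  obtain ⟨C, hC, hmn⟩ := mn_one
  have hS : 0 < Sing ({-1, 1} : Finset ℤ) := by
    have h1 := gg_pos (le_refl 3) (tup_T (x := 3) (by norm_num))
    unfold gg at h1
    have h2 : (0 : ℝ) < Real.log (3 : ℕ) := Real.log_pos (by norm_num)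
    have h3 : 0 < Real.log (3 : ℕ) ^ ({-1, 1} : Finset ℤ).card := by positivity
    by_contra hcon
    have h4 := div_nonpos_of_nonpos_of_nonneg (not_lt.1 hcon) h3.le
    linarith
  obtain ⟨K, hK, x₀, h⟩ := tup 2 1 (A + 3) le_rfl hθ
    (show 0 < ε / (6 * Sing ({-1, 1} : Finset ℤ)) by positivity)
  have hev : ∀ᶠ x : ℕ in Filter.atTop, (1 : ℝ) ≤ Real.log (Real.log x) :=
    (Real.tendsto_log_atTop.comp (Real.tendsto_log_atTop.comp
      tendsto_natCast_atTop_atTop)).eventually_ge_atTop 1
  obtain ⟨x₁, hx₁⟩ := Filter.eventually_atTop.1 hev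
  have key : ∃ x₂ : ℕ, ∀ x : ℕ, x₂ ≤ x → ∀ b : ℤ, 6 * |b| ≤ x → ∀ y X : ℕ, (x : ℝ) ^ θ ≤ X → y + X ≤ x ^ A →
      1 ≤ Real.log (Real.log x) ∧ 3 ≤ x ∧ ∀ f : ℕ → ℝ, (∀ q, |f q| ≤ 1) →
      (((Ioc y (y + X)).filter (fun k : ℕ => TwinIndex k ∧ (k : ℤ) + b ≠ 0 ∧
        (K + 2) * √(Real.log (Real.log x)) < |additive f ((k : ℤ) + b) - mean f x|)).card : ℝ) ≤
          ε * (X / Real.log x ^ 2) := by
    refine ⟨max x₀ (max x₁ 6), fun x hx b hb y X hX hyX => ?_⟩
    have hx0 : x₀ ≤ x := (le_max_left _ _).trans hx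
    have hx1 : x₁ ≤ x := (le_max_left _ _).trans ((le_max_right _ _).trans hx)
    have hx6 : 6 ≤ x := (le_max_right _ _).trans ((le_max_right _ _).trans hx)
    have hll := hx₁ x hx1
    refine ⟨hll, by omega, fun f hf => ?_⟩
    have hT := tup_T (x := x) (by omega)
    obtain ⟨P, hP⟩ : ∃ P : Finset ℕ, P = (Ioc y (y + X)).filter (fun k : ℕ => TwinIndex k) := ⟨_, rfl⟩
    have h1 := h x hx0 {-1, 1} hT (6 * b) (by
      rw [mem_insert, mem_singleton]
      omega) (by rw [abs_mul]; exact hb) (6 * y) (6 * X) (by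
      refine hX.trans ?_
      push_cast
      have : (0 : ℝ) ≤ X := Nat.cast_nonneg _
      linarith) (by
      have h2 : x ^ (A + 3) = x ^ A * (x * x * x) := by ring
      have h3 : 6 ≤ x * x * x := by
        have : 1 ≤ x * x := Nat.mul_pos (by omega) (by omega)
        calc 6 ≤ 1 * x := by omega
          _ ≤ x * x * x := Nat.mul_le_mul_right _ this
      have h4 : x ^ A * 6 ≤ x ^ A * (x * x * x) := Nat.mul_le_mul_left _ h3
      omega) f hf (P.image (fun k => 6 * k)) (by
      intro n hn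
      rw [mem_image] at hn
      obtain ⟨k, hk, rfl⟩ := hn
      rw [hP, mem_filter, mem_Ioc] at hk
      rw [mem_Ioc]
      omega) (by
      intro n hn
      rw [mem_image] at hn
      obtain ⟨k, hk, rfl⟩ := hn
      rw [hP, mem_filter] at hk
      left
      intro t ht
      rw [mem_insert, mem_singleton] at ht
      obtain ⟨-, h5, h6⟩ := hk
      have h7 := h5.pos
      rcases ht with rfl | rfl
      · have e : (((6 * k : ℕ) : ℤ) + -1).natAbs = 6 * k - 1 := by omega
        rw [e]
        exact h5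
      · have e : (((6 * k : ℕ) : ℤ) + 1).natAbs = 6 * k + 1 := by omega
        rw [e]
        exact h6)
    have h8 : ((Ioc y (y + X)).filter (fun k : ℕ => TwinIndex k ∧ (k : ℤ) + b ≠ 0 ∧
        (K + 2) * √(Real.log (Real.log x)) < |additive f ((k : ℤ) + b) - mean f x|)).card ≤
        ((P.image (fun k => 6 * k)).filter (fun n : ℕ => (n : ℤ) + 6 * b ≠ 0 ∧
      K * √(Real.log (Real.log x)) < |om f ((n : ℤ) + 6 * b) - mn f x|)).card := by
      apply card_le_card_of_injOn (fun k => 6 * k)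
      · intro k hk
        rw [mem_coe, mem_filter] at hk
        obtain ⟨hk1, hk2, hk3, hk4⟩ := hk
        rw [mem_coe, mem_filter]
        have e : (((6 * k : ℕ) : ℤ)) + 6 * b = 6 * ((k : ℤ) + b) := by push_cast; ring
        refine ⟨mem_image_of_mem _ (by rw [hP, mem_filter]; exact ⟨hk1, hk2⟩), ?_, ?_⟩
        · rw [e]
          exact mul_ne_zero (by norm_num) hk3
        · rw [e]
          rw [mean_eq] at hk4
          have h9 := six hf hk3
          have h10 := abs_sub_abs_le_abs_sub (additive f ((k : ℤ) + b) - mn f x) (om f (6 * ((k : ℤ) + b)) - mn f x)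
          have e2 : (additive f ((k : ℤ) + b) - mn f x) - (om f (6 * ((k : ℤ) + b)) - mn f x) =
              -(om f (6 * ((k : ℤ) + b)) - additive f ((k : ℤ) + b)) := by ring
          rw [e2, abs_neg] at h10
          have h11 : 1 ≤ √(Real.log (Real.log x)) := by rw [Real.one_le_sqrt]; exact hll
          linarith
      · intro k _ k' _ hkk
        have : 6 * k = 6 * k' := hkk
        omega
    refine (Nat.cast_le.2 h8).trans (h1.trans (le_of_eq ?_))
    have e : gg ({-1, 1} : Finset ℤ) x = Sing ({-1, 1} : Finset ℤ) / Real.log x ^ 2 := by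
      unfold gg
      rw [hT.card]
    rw [e]
    push_cast
    field_simp
  obtain ⟨x₂, hx₂⟩ := key
  refine ⟨K + 2 + C, by positivity, x₂, fun x hx b hb y X hX hyX => ?_⟩
  obtain ⟨hll, hx3, hk⟩ := hx₂ x hx b hb y X hX hyX
  have h11 : 1 ≤ √(Real.log (Real.log x)) := by rw [Real.one_le_sqrt]; exact hll
  have h12 : C ≤ C * √(Real.log (Real.log x)) := le_mul_of_one_le_right hC h11
  constructor
  · intro f hf
    refine le_trans (Nat.cast_le.2 (card_le_card ?_)) (hk f hf)
    intro k hkk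
    rw [mem_filter] at hkk ⊢
    refine ⟨hkk.1, hkk.2.1, hkk.2.2.1, ?_⟩
    have := hkk.2.2.2
    linarith
  · refine le_trans (Nat.cast_le.2 (card_le_card ?_)) (hk (fun _ => 1) (fun _ => by rw [abs_one]))
    intro k hkk
    rw [mem_filter] at hkk ⊢
    refine ⟨hkk.1, hkk.2.1, hkk.2.2.1, ?_⟩
    have h13 := hkk.2.2.2
    have e : additive (fun _ => 1) ((k : ℤ) + b) = ((((k : ℤ) + b).natAbs.primeFactors.card : ℕ) : ℝ) := by
      unfold additive
      rw [sum_const, nsmul_eq_mul, mul_one]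
    rw [e, mean_eq]
    have h14 := hmn x hx3
    have h15 := abs_sub_abs_le_abs_sub (((((k : ℤ) + b).natAbs.primeFactors.card : ℕ) : ℝ) - Real.log (Real.log x))
      (((((k : ℤ) + b).natAbs.primeFactors.card : ℕ) : ℝ) - mn (fun _ => 1) x)
    have e2 : (((((k : ℤ) + b).natAbs.primeFactors.card : ℕ) : ℝ) - Real.log (Real.log x)) -
      (((((k : ℤ) + b).natAbs.primeFactors.card : ℕ) : ℝ) - mn (fun _ => 1) x) =
        mn (fun _ => 1) x - Real.log (Real.log x) := by ring
    rw [e2] at h15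
    linarith

end Pool.Agent.Results.MP_ea8352_nt.PrimeFactorsOfIndices
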