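import Mathlib
import Pool.Agent.X28.SX.StepI
import Pool.Agent.Y886.EPB

/-!
# Decompositions `n = k + m` for which `6 k - 1`, `6 k - 1 + t` and `p_m + u` are prime, for almost all shifts

For every large `n`, every dense set `K` of `k < n` for which `6 k - 1` is prime, for instance the `k` for which
`6 k + 1` is moreover a product of at most two primes, and almost all vectors of shifts `t_i, u_i`, `i < r` (multiples of a
small primorial), all the numbers `6 k - 1 + t_i`, `p_m + u_i`, `m = n - k`, are prime for at least `1 - ε` times the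
expected number of `k ∈ K`.
-/

set_option autoImplicit false

namespace Pool.Agent.Results.MP_ea8352_nt.ShiftedPairs

open Finset Filter

/-- the `k`-th prime, `p 1 = 2` -/
noncomputable def p (k : ℕ) : ℕ := Nat.nth Nat.Prime (k - 1)

/-- the product of `1 - 1/q` over the primes `q ≤ y` -/
noncomputable def V (y : ℕ) : ℝ := ∏ q ∈ (Icc 1 y).filter Nat.Prime, (1 - 1 / (q : ℝ))

/-- the two primes `6 k - 1` and `p_m` of the question, `m = n - k` -/
noncomputable def base (n : ℕ) (c : Fin 2) (k : ℕ) : ℕ := ![6 * k - 1, p (n - k)] c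

open Classical in
/-- the `k ∈ K` for which all the numbers `6 k - 1 + t (0, i)` and `p_m + t (1, i)`, `i < r`, `m = n - k`, are prime -/
noncomputable def Good (n : ℕ) (K : Finset ℕ) {r : ℕ} (t : Fin 2 × Fin r → ℕ) : Finset ℕ :=
  K.filter (fun k => ∀ i, (base n i.1 k + t i).Prime)

/-- the `0 < k < n` for which `6 k - 1` is prime and `6 k + 1` has at most two prime factors (with multiplicity) -/
noncomputable def Chen (n : ℕ) : Finset ℕ :=
  (Ioo 0 n).filter (fun k => (6 * k - 1).Prime ∧ (6 * k + 1).primeFactorsList.length ≤ 2)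

open Classical in
/-- the conclusion for the set `K`: for all but at most `ε G ^ (2 r)` of the vectors `g ∈ [1, G] ^ (2 r)` all the numbers
`6 k - 1 + t`, `p_m + t` (with `r` of the shifts `t_i = M (g₀ + g_i)` each) are prime for at least
`(1 - ε) #K / (V y log n) ^ (2 r)` elements `k` of `K`; `M` is the product of the primes up to `y` -/
def Sharp (n r y g₀ G : ℕ) (ε : ℝ) (K : Finset ℕ) : Prop :=
  (((Fintype.piFinset (fun _ : Fin 2 × Fin r => Icc 1 G)).filter (fun g =>
    ((Good n K (fun i => primorial y * (g₀ + g i))).card : ℝ) <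
      (1 - ε) * (K.card / (V y * Real.log n) ^ (2 * r)))).card : ℝ) ≤ ε * (G : ℝ) ^ (2 * r)

theorem base_inj (n : ℕ) (c : Fin 2) : Set.InjOn (base n c) (Ioo 0 n : Finset ℕ) := by
  intro a ha b hb hab
  rw [mem_coe, mem_Ioo] at ha hb
  fin_cases c
  · have h : 6 * a - 1 = 6 * b - 1 := hab
    omega
  · have := Pool.Agent.X28.SX.nth_inj' (a := n - a) (b := n - b) (by omega) (by omega) hab
    omega

theorem chen_low : ∃ c : ℝ, 0 < c ∧ ∃ n₀ : ℕ, ∀ n : ℕ, n₀ ≤ n → c * n / Real.log n ^ 2 ≤ ((Chen n).card : ℝ) := by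
  classical
  obtain ⟨κ, hκ, hmany⟩ := Pool.Agent.Y886.EP.count_CP
  obtain ⟨X0, hX0⟩ := eventually_atTop.1 hmany
  refine ⟨κ / 4, by positivity, 4 * (X0 + 2), fun n hn => ?_⟩
  obtain ⟨X, hX⟩ : ∃ X : ℕ, X = (n - 1) / 2 := ⟨_, rfl⟩
  have h1 := hX0 X (by omega)
  have h4 : n ≤ 4 * X := by omega
  have h2X : 2 ≤ X := by omega
  have hXr : (2 : ℝ) ≤ X := by exact_mod_cast h2X
  have hXn : X ≤ n := by omega
  have hXnr : (X : ℝ) ≤ n := by exact_mod_cast hXn
  have hlX : 0 < Real.log X := Real.log_pos (by linarith)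
  have hl : Real.log X ≤ Real.log n := Real.log_le_log (by linarith) hXnr
  have h4r : (n : ℝ) ≤ 4 * X := by exact_mod_cast h4
  have h5 : κ / 4 * n / Real.log n ^ 2 ≤ κ * X / Real.log X ^ 2 := by
    apply div_le_div₀ (by positivity) _ (by positivity) (pow_le_pow_left₀ hlX.le hl 2)
    nlinarith
  refine h5.trans (h1.trans ?_)
  rw [Nat.cast_le]
  apply card_le_card
  intro k hk
  rw [mem_filter, mem_Ioc] at hk
  unfold Chen
  rw [mem_filter, mem_Ioo]
  exact ⟨⟨by omega, by omega⟩, hk.2.1, hk.2.2.1⟩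

/-- There is an absolute constant `c > 0` such that for all `r`, `A`, `C` and `0 < ε ≤ 1` there is `K₀` such that for
every `K₁` and every large `n`, every `y` between `K₀ log log n` and `K₁ log log n`, with `M` the product of the primes
`≤ y`, and every window `(g₀, g₀ + G]` with `M (g₀ + G) ≤ n`, `G ≥ n / (M log ^ C n)`:
(1) for every set `K` of at least `n / log ^ A n` integers `0 < k < n` with `6 k - 1` prime, for all but at most
`ε G ^ (2 r)` of the vectors `g ∈ [1, G] ^ (2 r)` all the numbers `6 k - 1 + t`, `p_m + t` (with `r` of the shifts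
`t_i = M (g₀ + g_i)` each), `m = n - k`, are prime for at least `(1 - ε) #K / (V y log n) ^ (2 r)` elements `k` of `K`;
(2) there are at least `c n / log ^ 2 n` integers `0 < k < n` for which `6 k - 1` is prime and `6 k + 1` has at most two
prime factors, and the conclusion of (1) holds for the set of all of them. -/
theorem result : ∃ c : ℝ, 0 < c ∧ ∀ (r A C : ℕ) (ε : ℝ), 0 < ε → ε ≤ 1 → ∃ K₀ : ℕ, ∀ K₁ : ℕ, ∃ n₀ : ℕ, ∀ n : ℕ, n₀ ≤ n →
    ∀ y : ℕ, K₀ * Real.log (Real.log n) ≤ y → y ≤ K₁ * Real.log (Real.log n) →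
    ∀ g₀ G : ℕ, primorial y * (g₀ + G) ≤ n → (n : ℝ) ≤ primorial y * G * Real.log n ^ C →
    (∀ K : Finset ℕ, K ⊆ Ioo 0 n → (∀ k ∈ K, (6 * k - 1).Prime) → (n : ℝ) ≤ K.card * Real.log n ^ A →
      Sharp n r y g₀ G ε K) ∧
    c * n / Real.log n ^ 2 ≤ ((Chen n).card : ℝ) ∧ Sharp n r y g₀ G ε (Chen n) := by
  classical
  obtain ⟨c, hc, n0, hn0⟩ := chen_low
  refine ⟨c, hc, ?_⟩
  intro r A C ε hε hε1
  obtain ⟨K₀, hK₀⟩ := Pool.Agent.X28.SX.stepI (ι := Fin 2 × Fin r) (fun _ => 1) (fun _ => Or.inl rfl) (max A 3) 5 C ε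
    hε hε1
  refine ⟨K₀, fun K₁ => ?_⟩
  obtain ⟨n1, hn1⟩ := hK₀ K₁
  obtain ⟨n2, hn2⟩ := Pool.Agent.X28.SX.nth_le
  obtain ⟨n4, hn4⟩ := Pool.Agent.H373R2.T7.ev_L' (max 6 (1 / c))
  refine ⟨max n1 (max n2 (max n0 n4)), fun n hn y hy1 hy2 g₀ G hg1 hg2 => ?_⟩
  have b1 : n1 ≤ n := le_trans (le_max_left _ _) hn
  have b2 : n2 ≤ n := le_trans (le_trans (le_max_left _ _) (le_max_right _ _)) hn
  have b3 : n0 ≤ n := le_trans (le_trans (le_trans (le_max_left _ _) (le_max_right _ _)) (le_max_right _ _)) hn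
  have b4 : n4 ≤ n := le_trans (le_trans (le_trans (le_max_right _ _) (le_max_right _ _)) (le_max_right _ _)) hn
  have hL6 : 6 ≤ Real.log n := (le_max_left _ _).trans (hn4 n b4)
  have hLc : 1 / c ≤ Real.log n := (le_max_right _ _).trans (hn4 n b4)
  have hL0 : 0 < Real.log n := by linarith
  have hL1 : 1 ≤ Real.log n := by linarith
  have hn00 : (0 : ℝ) ≤ n := Nat.cast_nonneg _
  have hpow : (n : ℝ) * Real.log n ^ 2 ≤ n * Real.log n ^ 5 :=
    mul_le_mul_of_nonneg_left (pow_le_pow_right₀ hL1 (by norm_num)) hn00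
  have hpow1 : (6 : ℝ) * n ≤ n * Real.log n ^ 5 := by
    have h1 : Real.log n ^ 1 ≤ Real.log n ^ 5 := pow_le_pow_right₀ hL1 (by norm_num)
    rw [pow_one] at h1
    nlinarith
  have main : ∀ K : Finset ℕ, K ⊆ Ioo 0 n → (∀ k ∈ K, (6 * k - 1).Prime) →
      (n : ℝ) ≤ K.card * Real.log n ^ (max A 3) → Sharp n r y g₀ G ε K := by
    intro K hK hKp hKc
    have hbd : ∀ c : Fin 2, ∀ k ∈ K, (base n c k).Prime ∧ (base n c k : ℝ) ≤ n * Real.log n ^ 5 := by
      intro c k hk
      have hk' := hK hk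
      rw [mem_Ioo] at hk'
      fin_cases c
      · refine ⟨hKp k hk, ?_⟩
        have h1 : (6 * k - 1 : ℕ) ≤ 6 * n := by omega
        have h2 : ((6 * k - 1 : ℕ) : ℝ) ≤ 6 * n := by exact_mod_cast h1
        exact h2.trans hpow1
      · exact ⟨Nat.prime_nth_prime _, (hn2 n b2 (n - k) (by omega)).trans hpow⟩
    have h1 := hn1 n b1 y hy1 hy2 K hKc (fun i => base n i.1) (fun i => (base_inj n i.1).mono (by exact_mod_cast hK))
      (fun i k hk => hbd i.1 k hk) (fun _ => g₀) (fun _ => G) (fun _ => by rw [pow_one]; exact hg1)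
      (fun _ => by rw [pow_one]; exact hg2)
    have hcd : Fintype.card (Fin 2 × Fin r) = 2 * r := by simp
    simp only [prod_const, card_univ, hcd] at h1
    unfold Sharp
    refine le_trans (le_of_eq ?_) h1
    congr 2
    apply filter_congr
    intro g _
    have e1 : Pool.Agent.H373R2.T7.Vz y * (((1 : ℕ) : ℝ) * Real.log n) = V y * Real.log n := by
      have : Pool.Agent.H373R2.T7.Vz y = V y := rfl
      rw [this]
      push_cast
      ring
    rw [e1]
    simp only [pow_one]
    rfl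
  refine ⟨fun K hK hKp hKc => main K hK hKp (hKc.trans ?_), hn0 n b3, ?_⟩
  · exact mul_le_mul_of_nonneg_left (pow_le_pow_right₀ hL1 (le_max_left _ _)) (Nat.cast_nonneg _)
  · apply main
    · exact filter_subset _ _
    · intro k hk
      exact (mem_filter.1 hk).2.1
    · have h1 := hn0 n b3
      rw [div_le_iff₀ (by positivity)] at h1
      have h2 : (n : ℝ) ≤ (Real.log n * c) * n := by
        have h3 : 1 ≤ Real.log n * c := by
          rwa [div_le_iff₀ hc] at hLc
        nlinarith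
      calc (n : ℝ) ≤ (Real.log n * c) * n := h2
        _ = Real.log n * (c * n) := by ring
        _ ≤ Real.log n * ((Chen n).card * Real.log n ^ 2) := mul_le_mul_of_nonneg_left h1 hL0.le
        _ = (Chen n).card * Real.log n ^ 3 := by ring
        _ ≤ (Chen n).card * Real.log n ^ (max A 3) :=
            mul_le_mul_of_nonneg_left (pow_le_pow_right₀ hL1 (le_max_right _ _)) (Nat.cast_nonneg _)

end Pool.Agent.Results.MP_ea8352_nt.ShiftedPairs
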